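import Pool.Agent.E8helper78.PS.One
import Pool.Agent.E8helper20.PS.RL

/-! # The piece S_LONG of the project PS (assembly) -/

set_option autoImplicit false
open MeasureTheory Filter Topology
namespace Pool.Agent.E8helper42.PS
open Pool.Agent.E8helper2.PS Pool.Agent.E8helper78.PS

lemma rv_fin (a : ℕ → ℂ) (N : ℕ) (w : ℂ) :
    Phi (rv a N) w = ∑ j ∈ Finset.range (N + 1), rv a N j * Complex.exp (Complex.I * j * w) := by
  unfold Phi
  refine tsum_eq_sum fun j hj => ?_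
  have : rv a N j = 0 := by
    unfold rv
    rw [if_neg]
    rintro ⟨-, h⟩
    exact hj (Finset.mem_range.2 (by omega))
  rw [this, zero_mul]

lemma rv_cont (a : ℕ → ℂ) (N : ℕ) : Continuous (Phi (rv a N)) := by
  have : Phi (rv a N) =
      fun w => ∑ j ∈ Finset.range (N + 1), rv a N j * Complex.exp (Complex.I * j * w) :=
    funext fun w => rv_fin a N w
  rw [this]
  fun_prop

lemma summ {c : ℕ → ℂ} {M : ℝ} (hc : ∀ n, ‖c n‖ ≤ M) {w : ℂ} (hw : 0 < w.im) :
    Summable (fun j : ℕ => c j * Complex.exp (Complex.I * j * w)) := by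
  refine Summable.of_norm_bounded (g := fun j : ℕ => M * Real.exp (-w.im) ^ j) ?_ fun j => ?_
  · exact (summable_geometric_of_lt_one (Real.exp_pos _).le
      ((Real.exp_lt_exp.2 (by linarith : -w.im < 0)).trans_eq Real.exp_zero)).mul_left M
  · rw [norm_mul, Complex.norm_exp]
    have : (Complex.I * j * w).re = j * (-w.im) := by
      simp [mul_assoc]
    rw [this, Real.exp_nat_mul]
    exact mul_le_mul_of_nonneg_right (hc j) (by positivity)

lemma ident {a : ℕ → ℂ} {M : ℝ} (ha : ∀ n, ‖a n‖ ≤ M) (N : ℕ) {w : ℂ} (hw : 0 < w.im) :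
    Phi (sh a N) w + Phi (rv a N) (-w) = Complex.exp (-(Complex.I * N * w)) * Phi a w := by
  have h1 := (summ ha hw).sum_add_tsum_nat_add N
  have h2 : Complex.exp (-(Complex.I * N * w)) *
      ∑' k : ℕ, a (k + N) * Complex.exp (Complex.I * ((k + N : ℕ) : ℂ) * w) = Phi (sh a N) w := by
    rw [← tsum_mul_left]
    unfold Phi sh
    refine tsum_congr fun k => ?_
    rw [mul_left_comm, ← Complex.exp_add, add_comm k N]
    congr 2
    push_cast
    ring
  have h3 : Complex.exp (-(Complex.I * N * w)) *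
      ∑ n ∈ Finset.range N, a n * Complex.exp (Complex.I * n * w) = Phi (rv a N) (-w) := by
    rw [rv_fin, Finset.sum_range_succ', Finset.mul_sum]
    have h0 : rv a N 0 = 0 := by simp [rv]
    rw [h0, zero_mul, add_zero, ← Finset.sum_range_reflect]
    refine Finset.sum_congr rfl fun j hj => ?_
    have hj' := Finset.mem_range.1 hj
    have h4 : rv a N (j + 1) = a (N - 1 - j) := by
      unfold rv
      rw [if_pos ⟨by omega, by omega⟩]
      congr 1
      omega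
    rw [h4, mul_left_comm, ← Complex.exp_add]
    congr 2
    have h5 : ((N - 1 - j : ℕ) : ℂ) = (N : ℂ) - 1 - j := by
      rw [Nat.cast_sub (by omega), Nat.cast_sub (by omega)]
      push_cast
      ring
    rw [h5]
    push_cast
    ring
  have h6 : Phi a w = ∑ n ∈ Finset.range N, a n * Complex.exp (Complex.I * n * w) +
      ∑' k : ℕ, a (k + N) * Complex.exp (Complex.I * ((k + N : ℕ) : ℂ) * w) := h1.symm
  rw [h6, mul_add, h2, h3, add_comm]

lemma kk_symm (x1 x2 q : ℝ) (w : ℂ) : kk (-x2) (-x1) q (-w) = kk x1 x2 q w := by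
  unfold kk
  push_cast
  have e1 : (-w - -(x2 : ℂ)) = x2 - w := by ring
  have e2 : (-(x1 : ℂ) - -w) = w - x1 := by ring
  rw [e1, e2, mul_comm]

lemma kk_cont {x1 x2 q : ℝ} (hq : 0 < q) :
    ContinuousOn (fun θ : ℝ => kk x1 x2 q (θ : ℂ)) (Set.Icc x1 x2) := by
  have hc : ∀ r : ℝ, Continuous (fun θ : ℝ => (θ : ℂ) - r) := fun r => by fun_prop
  have hc' : ∀ r : ℝ, Continuous (fun θ : ℝ => (r : ℂ) - (θ : ℂ)) := fun r => by fun_prop
  unfold kk
  refine ContinuousOn.mul ?_ ?_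
  · refine ContinuousOn.div (hc x1).continuousOn ((hc x1).add continuous_const).continuousOn ?_
    intro θ hθ
    exact add_ne _ q (by simp; exact hθ.1) hq
  · refine ContinuousOn.div (hc' x2).continuousOn ((hc' x2).add continuous_const).continuousOn ?_
    intro θ hθ
    exact add_ne _ q (by simp; exact hθ.2) hq

theorem t_LONG (h0 : S_WIN) (h1 : S_ABEL) (h3 : S_CONT) : S_LONG := by
  intro a M e₁ e₂ ha W1 W2 h12 hex ε hε
  obtain ⟨u, hu, huP⟩ := hex
  have hM : 0 ≤ M := (norm_nonneg _).trans (ha 0)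
  refine ⟨min 1 (ε / (200 * M + 1)), by positivity, fun τ hτ0 hτ => ?_⟩
  have hτ1 : τ ≤ 1 := (hτ.trans_le (min_le_left _ _)).le
  have hτ2 : 68 * M * τ ≤ ε / 2 := by
    have h : τ < ε / (200 * M + 1) := hτ.trans_le (min_le_right _ _)
    rw [lt_div_iff₀ (by positivity)] at h
    nlinarith [mul_nonneg hM hτ0.le]
  obtain ⟨q, hq0, hq1, hq2, hq3⟩ : ∃ q : ℝ, 0 < q ∧ 2 * q ^ 4 < e₂ - e₁ ∧ q ^ 2 < τ ∧
      2 * (4 * M * q ^ 4 / τ + 4 * M * (e₂ - e₁) * q / τ ^ 2 + 4 * M * q) < ε / 4 := by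
    have c1 : Tendsto (fun q : ℝ => 2 * q ^ 4) (𝓝[>] 0) (𝓝 0) := by
      have : Continuous (fun q : ℝ => 2 * q ^ 4) := by fun_prop
      simpa using (this.tendsto 0).mono_left nhdsWithin_le_nhds
    have c2 : Tendsto (fun q : ℝ => q ^ 2) (𝓝[>] 0) (𝓝 0) := by
      have : Continuous (fun q : ℝ => q ^ 2) := by fun_prop
      simpa using (this.tendsto 0).mono_left nhdsWithin_le_nhds
    have c3 : Tendsto (fun q : ℝ => 2 * (4 * M * q ^ 4 / τ + 4 * M * (e₂ - e₁) * q / τ ^ 2 +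
        4 * M * q)) (𝓝[>] 0) (𝓝 0) := by
      have : Continuous (fun q : ℝ => 2 * (4 * M * q ^ 4 / τ + 4 * M * (e₂ - e₁) * q / τ ^ 2 +
        4 * M * q)) := by fun_prop
      simpa using (this.tendsto 0).mono_left nhdsWithin_le_nhds
    have c4 : ∀ᶠ q : ℝ in 𝓝[>] 0, 0 < q := self_mem_nhdsWithin
    obtain ⟨q, hq⟩ := (c4.and ((c1.eventually_lt_const (sub_pos.2 h12)).and
      ((c2.eventually_lt_const hτ0).and
        (c3.eventually_lt_const (show 0 < ε / 4 by positivity))))).exists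
    exact ⟨q, hq.1, hq.2.1, hq.2.2.1, hq.2.2.2⟩
  have hq4 : 0 < q ^ 4 := by positivity
  obtain ⟨x1, hx1⟩ : ∃ x, x = e₁ + q ^ 4 := ⟨_, rfl⟩
  obtain ⟨x2, hx2⟩ : ∃ x, x = e₂ - q ^ 4 := ⟨_, rfl⟩
  have hx12 : x1 ≤ x2 := by rw [hx1, hx2]; linarith
  have hrl := Pool.Agent.E8helper20.PS.rl (fun θ : ℝ => kk x1 x2 q (θ : ℂ) * u (θ : ℂ)) x1 x2 hx12
  obtain ⟨N₀, hN₀⟩ := (Metric.tendsto_atTop.1 hrl) (ε / 4) (by positivity)
  refine ⟨N₀, fun N hN => ?_⟩
  have hR := hN₀ N hN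
  rw [dist_zero_right] at hR
  have hsh : ∀ n, ‖sh a N n‖ ≤ M := fun n => ha _
  have hrv : ∀ n, ‖rv a N n‖ ≤ M := by
    intro n
    unfold rv
    split_ifs
    · exact ha _
    · rw [norm_zero]
      exact hM
  have huc : ContinuousOn u {w : ℂ | e₁ < w.re ∧ w.re < e₂ ∧ 0 ≤ w.im} := by
    refine hu.mono ?_
    rintro w ⟨r1, r2, r3⟩
    rcases r3.lt_or_eq with h | h
    · exact Or.inl h
    · exact Or.inr ⟨h.symm, r1, r2⟩
  have hFc : ContinuousOn (fun w : ℂ => Complex.exp (-(Complex.I * N * w)) * u w -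
      Phi (rv a N) (-w)) {w : ℂ | e₁ < w.re ∧ w.re < e₂ ∧ 0 ≤ w.im} := by
    refine ContinuousOn.sub (ContinuousOn.mul (Continuous.continuousOn (by fun_prop)) huc) ?_
    exact ((rv_cont a N).comp continuous_neg).continuousOn
  have A := one_side h1 h3 (sh a N) M e₁ e₂ q τ hsh (h0 a M e₁ W1 N).1 (h0 a M e₂ W2 N).1 hq0 hq1
    hq2.le hτ1 _ hFc (by
      intro w hw _ _
      show Complex.exp (-(Complex.I * N * w)) * u w - Phi (rv a N) (-w) = Phi (sh a N) w
      rw [huP w hw, ← ident ha N hw]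
      ring)
  have B := one_side h1 h3 (rv a N) M (-e₂) (-e₁) q τ hrv (h0 a M e₂ W2 N).2 (h0 a M e₁ W1 N).2
    hq0 (by linarith) hq2.le hτ1 (Phi (rv a N)) (rv_cont a N).continuousOn (fun w _ _ _ => rfl)
  rw [← hx1, ← hx2] at A
  have y1 : -e₂ + q ^ 4 = -x2 := by rw [hx2]; ring
  have y2 : -e₁ - q ^ 4 = -x1 := by rw [hx1]; ring
  have y3 : -e₁ - -e₂ = e₂ - e₁ := by ring
  rw [y1, y2, y3] at B
  have hB1 : (∫ θ in (-e₂)..(-e₁), Phi (rv a N) ((θ : ℂ) + τ * Complex.I)) =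
      ∫ θ in e₁..e₂, Phi (rv a N) (-(θ : ℂ) + τ * Complex.I) := by
    rw [← intervalIntegral.integral_comp_neg]
    simp only [Complex.ofReal_neg]
  have hB2 : (∫ θ in (-x2)..(-x1), kk (-x2) (-x1) q (θ : ℂ) * Phi (rv a N) (θ : ℂ)) =
      ∫ θ in x1..x2, kk x1 x2 q (θ : ℂ) * Phi (rv a N) (-(θ : ℂ)) := by
    rw [← intervalIntegral.integral_comp_neg]
    simp only [Complex.ofReal_neg, kk_symm]
  rw [hB1, hB2] at B
  have hcS : ContinuousOn (Phi (sh a N)) {w : ℂ | 0 < w.im} := (h3 _ M hsh).1.continuousOn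
  have iS : IntervalIntegrable (fun θ : ℝ => Phi (sh a N) ((θ : ℂ) + τ * Complex.I)) volume e₁ e₂ := by
    apply Continuous.intervalIntegrable
    have hg : Continuous (fun θ : ℝ => (θ : ℂ) + τ * Complex.I) := by fun_prop
    refine hcS.comp_continuous hg fun θ => ?_
    show 0 < ((θ : ℂ) + τ * Complex.I).im
    simpa using hτ0
  have iR : IntervalIntegrable (fun θ : ℝ => Phi (rv a N) (-(θ : ℂ) + τ * Complex.I)) volume
      e₁ e₂ := by
    apply Continuous.intervalIntegrable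
    exact (rv_cont a N).comp (by fun_prop)
  have hD : (∫ θ in e₁..e₂, Dl a N τ θ) =
      (∫ θ in e₁..e₂, Phi (sh a N) ((θ : ℂ) + τ * Complex.I)) +
      ∫ θ in e₁..e₂, Phi (rv a N) (-(θ : ℂ) + τ * Complex.I) := by
    rw [← intervalIntegral.integral_add iS iR]
    rfl
  have hmap : ∀ θ ∈ Set.Icc x1 x2, ((θ : ℝ) : ℂ) ∈ {w : ℂ | e₁ < w.re ∧ w.re < e₂ ∧ 0 ≤ w.im} := by
    intro θ hθ
    refine ⟨?_, ?_, ?_⟩
    · rw [Complex.ofReal_re]
      have := hθ.1
      rw [hx1] at this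
      linarith
    · rw [Complex.ofReal_re]
      have := hθ.2
      rw [hx2] at this
      linarith
    · rw [Complex.ofReal_im]
  have iJ1 : IntervalIntegrable (fun θ : ℝ => kk x1 x2 q (θ : ℂ) *
      (Complex.exp (-(Complex.I * N * (θ : ℂ))) * u (θ : ℂ) - Phi (rv a N) (-(θ : ℂ)))) volume
      x1 x2 := by
    apply ContinuousOn.intervalIntegrable
    rw [Set.uIcc_of_le hx12]
    refine (kk_cont hq0).mul ?_
    exact hFc.comp (Complex.continuous_ofReal.continuousOn) hmap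
  have iJ2 : IntervalIntegrable (fun θ : ℝ => kk x1 x2 q (θ : ℂ) * Phi (rv a N) (-(θ : ℂ))) volume
      x1 x2 := by
    apply ContinuousOn.intervalIntegrable
    rw [Set.uIcc_of_le hx12]
    refine (kk_cont hq0).mul ?_
    exact ((rv_cont a N).comp (by fun_prop)).continuousOn
  have hJ : (∫ θ in x1..x2, kk x1 x2 q (θ : ℂ) *
      (Complex.exp (-(Complex.I * N * (θ : ℂ))) * u (θ : ℂ) - Phi (rv a N) (-(θ : ℂ)))) +
      (∫ θ in x1..x2, kk x1 x2 q (θ : ℂ) * Phi (rv a N) (-(θ : ℂ))) =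
      ∫ θ in x1..x2, Complex.exp (-(Complex.I * N * (θ : ℂ))) * (kk x1 x2 q (θ : ℂ) * u (θ : ℂ)) := by
    rw [← intervalIntegral.integral_add iJ1 iJ2]
    refine intervalIntegral.integral_congr fun θ _ => ?_
    show _ + _ = _
    ring
  rw [hD]
  set IA := ∫ θ in e₁..e₂, Phi (sh a N) ((θ : ℂ) + τ * Complex.I)
  set IB := ∫ θ in e₁..e₂, Phi (rv a N) (-(θ : ℂ) + τ * Complex.I)
  set JA := ∫ θ in x1..x2, kk x1 x2 q (θ : ℂ) *
      (Complex.exp (-(Complex.I * N * (θ : ℂ))) * u (θ : ℂ) - Phi (rv a N) (-(θ : ℂ)))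
  set JB := ∫ θ in x1..x2, kk x1 x2 q (θ : ℂ) * Phi (rv a N) (-(θ : ℂ))
  rw [← hJ] at hR
  have e : IA + IB = (IA - JA) + (IB - JB) + (JA + JB) := by ring
  rw [e]
  have n1 := norm_add_le ((IA - JA) + (IB - JB)) (JA + JB)
  have n2 := norm_add_le (IA - JA) (IB - JB)
  linarith

end Pool.Agent.E8helper42.PS
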