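import Pool.Agent.E8helper2.PS.Stm

/-!
# The Fatou-Riesz theorem (project PS, part RIESZ)

On the circle `|w - 1| = δ` the kernel `K w = (w - 1)² + δ² w` equals `(w - 1) (|w|² - 1)`; the maximum
principle for `(g w - s_N w) K w / w ^ N` on the disc `|w - 1| ≤ δ` gives the theorem.
-/

set_option autoImplicit false
open Filter Topology Finset
namespace Pool.Agent.E8helper42.PS

/-- the kernel -/
noncomputable def Kf (δ : ℝ) (w : ℂ) : ℂ := (w - 1) ^ 2 + (δ : ℂ) ^ 2 * w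

lemma K_norm {δ : ℝ} {w : ℂ} (hw : ‖w - 1‖ = δ) : ‖Kf δ w‖ = δ * |‖w‖ ^ 2 - 1| := by
  have h1 : (δ : ℂ) ^ 2 = (w - 1) * (starRingEnd ℂ) (w - 1) := by
    rw [Complex.mul_conj, Complex.normSq_eq_norm_sq, hw]
    push_cast
    rfl
  have h2 : ((‖w‖ : ℝ) : ℂ) ^ 2 = w * (starRingEnd ℂ) w := by
    rw [Complex.mul_conj, Complex.normSq_eq_norm_sq]
    push_cast
    rfl
  have h3 : Kf δ w = (w - 1) * (((‖w‖ ^ 2 - 1 : ℝ)) : ℂ) := by
    unfold Kf
    rw [h1]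
    push_cast
    rw [h2, map_sub, map_one]
    ring
  rw [h3, norm_mul, hw, Complex.norm_real, Real.norm_eq_abs]

lemma bd_in {a : ℕ → ℂ} {A ε : ℝ} (hA : ∀ n, ‖a n‖ ≤ A) {m : ℕ} (hε : ∀ n, m ≤ n → ‖a n‖ ≤ ε)
    {N : ℕ} (hN : m ≤ N) {w : ℂ} (hw : ‖w‖ < 1) :
    ‖(∑' n, a n * w ^ n) - ∑ n ∈ range N, a n * w ^ n‖ * (1 - ‖w‖) ≤ ε * ‖w‖ ^ N := by
  have hs : Summable (fun n => a n * w ^ n) := by
    refine Summable.of_norm_bounded (g := fun n => A * ‖w‖ ^ n)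
      ((summable_geometric_of_lt_one (norm_nonneg w) hw).mul_left A) fun n => ?_
    rw [norm_mul, norm_pow]
    exact mul_le_mul_of_nonneg_right (hA n) (by positivity)
  have h1 := hs.sum_add_tsum_nat_add N
  have h2 : (∑' n, a n * w ^ n) - ∑ n ∈ range N, a n * w ^ n =
      ∑' k, a (k + N) * w ^ (k + N) := by
    rw [← h1]
    ring
  have h3 : ‖∑' k, a (k + N) * w ^ (k + N)‖ ≤ ε * ‖w‖ ^ N * (1 - ‖w‖)⁻¹ := by
    refine tsum_of_norm_bounded
      ((hasSum_geometric_of_lt_one (norm_nonneg w) hw).mul_left (ε * ‖w‖ ^ N)) fun k => ?_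
    rw [norm_mul, norm_pow, pow_add]
    have h5 := mul_le_mul_of_nonneg_right (hε (k + N) (by omega))
      (show 0 ≤ ‖w‖ ^ k * ‖w‖ ^ N by positivity)
    calc _ ≤ ε * (‖w‖ ^ k * ‖w‖ ^ N) := h5
      _ = _ := by ring
  rw [h2]
  have h4 : 0 < 1 - ‖w‖ := by linarith
  calc _ ≤ (ε * ‖w‖ ^ N * (1 - ‖w‖)⁻¹) * (1 - ‖w‖) := mul_le_mul_of_nonneg_right h3 h4.le
    _ = ε * ‖w‖ ^ N := by rw [mul_assoc, inv_mul_cancel₀ h4.ne', mul_one]

lemma bern {ρ : ℝ} (hρ : 1 < ρ) (k : ℕ) : (k : ℝ) * (ρ - 1) ≤ ρ ^ k := by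
  have h5 : 1 + (k : ℝ) * (ρ - 1) ≤ (1 + (ρ - 1)) ^ k := one_add_mul_le_pow (by linarith) k
  rw [show (1 : ℝ) + (ρ - 1) = ρ by ring] at h5
  linarith

lemma bd_out {a : ℕ → ℂ} {A ε : ℝ} (hA0 : 0 ≤ A) (hε0 : 0 ≤ ε) (hA : ∀ n, ‖a n‖ ≤ A) {m : ℕ}
    (hε : ∀ n, m ≤ n → ‖a n‖ ≤ ε) {N : ℕ} (hN : m < N) {w : ℂ} (hw : 1 < ‖w‖) :
    ‖∑ n ∈ range N, a n * w ^ n‖ * (‖w‖ - 1) ≤ (ε + A * m / ((N : ℝ) - m)) * ‖w‖ ^ N := by
  set ρ := ‖w‖ with hρ
  have h1 : ‖∑ n ∈ range N, a n * w ^ n‖ ≤ ∑ n ∈ range N, ‖a n‖ * ρ ^ n :=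
    (norm_sum_le _ _).trans (le_of_eq (sum_congr rfl fun n _ => by rw [norm_mul, norm_pow]))
  have hρ0 : 0 < ρ := by linarith
  have h2 : ∑ n ∈ range N, ‖a n‖ * ρ ^ n ≤ A * m * ρ ^ m + ε * ∑ n ∈ range N, ρ ^ n := by
    rw [← sum_range_add_sum_Ico _ hN.le]
    refine add_le_add ?_ ?_
    · calc ∑ n ∈ range m, ‖a n‖ * ρ ^ n ≤ ∑ n ∈ range m, A * ρ ^ m := by
            refine sum_le_sum fun n hn => ?_
            exact mul_le_mul (hA n) (pow_le_pow_right₀ hw.le (mem_range.1 hn).le) (by positivity)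
              hA0
        _ = A * m * ρ ^ m := by
            rw [sum_const, card_range, nsmul_eq_mul]
            ring
    · calc ∑ n ∈ Ico m N, ‖a n‖ * ρ ^ n ≤ ∑ n ∈ Ico m N, ε * ρ ^ n := by
            refine sum_le_sum fun n hn => ?_
            exact mul_le_mul_of_nonneg_right (hε n (mem_Ico.1 hn).1) (by positivity)
        _ ≤ ∑ n ∈ range N, ε * ρ ^ n := by
            refine sum_le_sum_of_subset_of_nonneg ?_ fun _ _ _ => by positivity
            intro n hn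
            rw [mem_range]
            exact (mem_Ico.1 hn).2
        _ = ε * ∑ n ∈ range N, ρ ^ n := by rw [mul_sum]
  have h3 : (∑ n ∈ range N, ρ ^ n) * (ρ - 1) = ρ ^ N - 1 := geom_sum_mul ρ N
  have hNm : (0 : ℝ) < (N : ℝ) - m := by
    have : (m : ℝ) < N := by exact_mod_cast hN
    linarith
  have h4 : ρ ^ m * (ρ - 1) * ((N : ℝ) - m) ≤ ρ ^ N := by
    have h5 := bern hw (N - m)
    rw [Nat.cast_sub hN.le] at h5
    have h6 : ρ ^ N = ρ ^ m * ρ ^ (N - m) := by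
      rw [← pow_add]
      congr 1
      omega
    rw [h6, mul_assoc]
    refine mul_le_mul_of_nonneg_left ?_ (by positivity)
    linarith
  have h7 : ρ ^ m * (ρ - 1) ≤ ρ ^ N / ((N : ℝ) - m) := by
    rw [le_div_iff₀ hNm]
    exact h4
  calc ‖∑ n ∈ range N, a n * w ^ n‖ * (ρ - 1)
      ≤ (A * m * ρ ^ m + ε * ∑ n ∈ range N, ρ ^ n) * (ρ - 1) :=
        mul_le_mul_of_nonneg_right (h1.trans h2) (by linarith)
    _ = A * m * (ρ ^ m * (ρ - 1)) + ε * ((∑ n ∈ range N, ρ ^ n) * (ρ - 1)) := by ring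
    _ ≤ A * m * (ρ ^ N / ((N : ℝ) - m)) + ε * ρ ^ N := by
        rw [h3]
        exact add_le_add (mul_le_mul_of_nonneg_left h7 (by positivity))
          (mul_le_mul_of_nonneg_left (by linarith) hε0)
    _ = (ε + A * m / ((N : ℝ) - m)) * ρ ^ N := by ring

/-- the bound on the circle -/
lemma circle {a : ℕ → ℂ} {A ε G δ : ℝ} (hA0 : 0 ≤ A) (hε0 : 0 ≤ ε) (hG0 : 0 ≤ G) (hδ0 : 0 < δ)
    (hδ1 : δ ≤ 1 / 2) (hA : ∀ n, ‖a n‖ ≤ A) {m : ℕ} (hε : ∀ n, m ≤ n → ‖a n‖ ≤ ε) {N : ℕ}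
    (hN : m < N) {w g : ℂ} (hw : ‖w - 1‖ = δ) (hg : ‖g‖ ≤ G)
    (hser : ‖w‖ < 1 → g = ∑' n, a n * w ^ n) :
    ‖(g - ∑ n ∈ range N, a n * w ^ n) * Kf δ w‖ ≤
      3 * δ * (ε + A * m / ((N : ℝ) - m) + G / N) * ‖w‖ ^ N := by
  have hNm : (0 : ℝ) < (N : ℝ) - m := by
    have : (m : ℝ) < N := by exact_mod_cast hN
    linarith
  have hN0 : (0 : ℝ) < N := by
    have : 0 < N := by omega
    exact_mod_cast this
  have hT1 : 0 ≤ A * m / ((N : ℝ) - m) := by positivity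
  have hT2 : 0 ≤ G / N := by positivity
  rw [norm_mul, K_norm hw]
  rcases lt_trichotomy ‖w‖ 1 with h | h | h
  · have h1 := bd_in hA hε hN.le h
    rw [← hser h] at h1
    have h2 : |‖w‖ ^ 2 - 1| = (1 - ‖w‖) * (1 + ‖w‖) := by
      rw [abs_of_nonpos (by nlinarith [norm_nonneg w])]
      ring
    rw [h2]
    have h3 : 0 ≤ ε * ‖w‖ ^ N := by positivity
    calc ‖g - ∑ n ∈ range N, a n * w ^ n‖ * (δ * ((1 - ‖w‖) * (1 + ‖w‖)))
        = (‖g - ∑ n ∈ range N, a n * w ^ n‖ * (1 - ‖w‖)) * (δ * (1 + ‖w‖)) := by ring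
      _ ≤ (ε * ‖w‖ ^ N) * (δ * (1 + ‖w‖)) :=
          mul_le_mul_of_nonneg_right h1 (by positivity)
      _ ≤ (ε * ‖w‖ ^ N) * (δ * 3) := by
          refine mul_le_mul_of_nonneg_left ?_ h3
          exact mul_le_mul_of_nonneg_left (by linarith) hδ0.le
      _ = 3 * δ * ε * ‖w‖ ^ N := by ring
      _ ≤ 3 * δ * (ε + A * m / ((N : ℝ) - m) + G / N) * ‖w‖ ^ N := by
          refine mul_le_mul_of_nonneg_right ?_ (by positivity)
          exact mul_le_mul_of_nonneg_left (by linarith) (by positivity)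
  · rw [h]
    norm_num
    positivity
  · have h1 := bd_out hA0 hε0 hA hε hN h
    have h2 : |‖w‖ ^ 2 - 1| = (‖w‖ - 1) * (‖w‖ + 1) := by
      rw [abs_of_nonneg (by nlinarith)]
      ring
    have hw2 : ‖w‖ ≤ 3 / 2 := by
      have : ‖w‖ ≤ ‖w - 1‖ + ‖(1 : ℂ)‖ := by
        simpa using norm_add_le (w - 1) 1
      rw [hw, norm_one] at this
      linarith
    have h3 : G * (‖w‖ - 1) ≤ G / N * ‖w‖ ^ N := by
      have h4 := bern h N
      have h5 : ‖w‖ - 1 ≤ ‖w‖ ^ N / N := by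
        rw [le_div_iff₀ hN0]
        linarith
      calc G * (‖w‖ - 1) ≤ G * (‖w‖ ^ N / N) := mul_le_mul_of_nonneg_left h5 hG0
        _ = G / N * ‖w‖ ^ N := by ring
    rw [h2]
    have h6 : ‖g - ∑ n ∈ range N, a n * w ^ n‖ ≤ G + ‖∑ n ∈ range N, a n * w ^ n‖ :=
      (norm_sub_le _ _).trans (by linarith)
    calc ‖g - ∑ n ∈ range N, a n * w ^ n‖ * (δ * ((‖w‖ - 1) * (‖w‖ + 1)))
        ≤ (G + ‖∑ n ∈ range N, a n * w ^ n‖) * (δ * ((‖w‖ - 1) * 3)) := by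
          refine mul_le_mul h6 ?_ ?_ (by positivity)
          · refine mul_le_mul_of_nonneg_left ?_ hδ0.le
            exact mul_le_mul_of_nonneg_left (by linarith) (by linarith)
          · exact mul_nonneg hδ0.le (mul_nonneg (by linarith) (by linarith))
      _ = 3 * δ * (G * (‖w‖ - 1) + ‖∑ n ∈ range N, a n * w ^ n‖ * (‖w‖ - 1)) := by ring
      _ ≤ 3 * δ * (G / N * ‖w‖ ^ N + (ε + A * m / ((N : ℝ) - m)) * ‖w‖ ^ N) := by
          refine mul_le_mul_of_nonneg_left (add_le_add h3 h1) (by positivity)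
      _ = _ := by ring

/-- the bound at the centre -/
lemma centre {a : ℕ → ℂ} {A ε G δ r : ℝ} {g : ℂ → ℂ} (hA0 : 0 ≤ A) (hε0 : 0 ≤ ε) (hδ0 : 0 < δ)
    (hδ1 : δ ≤ 1 / 2) (hδr : δ < r) (hA : ∀ n, ‖a n‖ ≤ A) {m : ℕ} (hε : ∀ n, m ≤ n → ‖a n‖ ≤ ε)
    {N : ℕ} (hN : m < N) (hd : DifferentiableOn ℂ g (Metric.ball 1 r))
    (hG : ∀ w ∈ Metric.closedBall (1 : ℂ) δ, ‖g w‖ ≤ G)
    (hser : ∀ w ∈ Metric.ball (1 : ℂ) r, ‖w‖ < 1 → g w = ∑' n, a n * w ^ n) :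
    ‖g 1 - ∑ n ∈ range N, a n‖ ≤ 3 / δ * (ε + A * m / ((N : ℝ) - m) + G / N) := by
  have hG0 : 0 ≤ G := (norm_nonneg _).trans (hG 1 (Metric.mem_closedBall_self hδ0.le))
  set T := ε + A * m / ((N : ℝ) - m) + G / N with hT
  set H : ℂ → ℂ := fun w => (g w - ∑ n ∈ range N, a n * w ^ n) * Kf δ w / w ^ N with hH
  have hne : ∀ w ∈ Metric.closedBall (1 : ℂ) δ, w ≠ 0 := by
    rintro w hw rfl
    rw [Metric.mem_closedBall, dist_eq_norm, zero_sub, norm_neg, norm_one] at hw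
    linarith
  have hsub : Metric.closedBall (1 : ℂ) δ ⊆ Metric.ball 1 r :=
    Metric.closedBall_subset_ball hδr
  have hdiff : DifferentiableOn ℂ H (Metric.closedBall (1 : ℂ) δ) := by
    have h1 : DifferentiableOn ℂ (fun w : ℂ => ∑ n ∈ range N, a n * w ^ n)
        (Metric.closedBall (1 : ℂ) δ) := by
      refine DifferentiableOn.fun_sum fun n _ => ?_
      exact (differentiableOn_const _).mul (differentiableOn_id.pow n)
    have h2 : DifferentiableOn ℂ (Kf δ) (Metric.closedBall (1 : ℂ) δ) := by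
      unfold Kf
      fun_prop
    have h3 : DifferentiableOn ℂ (fun w : ℂ => w ^ N) (Metric.closedBall (1 : ℂ) δ) :=
      differentiableOn_id.pow N
    exact (((hd.mono hsub).sub h1).mul h2).div h3 fun w hw => pow_ne_zero _ (hne w hw)
  have hcl : DiffContOnCl ℂ H (Metric.ball (1 : ℂ) δ) := by
    apply DifferentiableOn.diffContOnCl
    rw [closure_ball _ hδ0.ne']
    exact hdiff
  have hmax := Complex.norm_le_of_forall_mem_frontier_norm_le (C := 3 * δ * T)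
    Metric.isBounded_ball hcl (fun w hw => by
      rw [frontier_ball _ hδ0.ne', mem_sphere_iff_norm] at hw
      have hwc : w ∈ Metric.closedBall (1 : ℂ) δ := by
        rw [Metric.mem_closedBall, dist_eq_norm]
        exact hw.le
      have h1 := circle hA0 hε0 hG0 hδ0 hδ1 hA hε hN hw (hG w hwc)
        (fun h => hser w (hsub hwc) h)
      have h2 : 0 < ‖w‖ ^ N := pow_pos (norm_pos_iff.2 (hne w hwc)) N
      simp only [hH]
      rw [norm_div, norm_pow, div_le_iff₀ h2]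
      exact h1) (z := 1) (subset_closure (Metric.mem_ball_self hδ0))
  have h1 : H 1 = (g 1 - ∑ n ∈ range N, a n) * (δ : ℂ) ^ 2 := by
    simp only [hH, Kf, one_pow, mul_one, sub_self, div_one]
    ring
  rw [h1, norm_mul, norm_pow, Complex.norm_real, Real.norm_eq_abs, abs_of_pos hδ0] at hmax
  have h2 : 3 / δ * T = 3 * δ * T / δ ^ 2 := by
    field_simp
  rw [h2, le_div_iff₀ (by positivity)]
  exact hmax

theorem core {a : ℕ → ℂ} {r : ℝ} {g : ℂ → ℂ} (ha : Tendsto a atTop (𝓝 0)) (hr : 0 < r)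
    (hd : DifferentiableOn ℂ g (Metric.ball 1 r))
    (hser : ∀ w ∈ Metric.ball (1 : ℂ) r, ‖w‖ < 1 → g w = ∑' n, a n * w ^ n) :
    Tendsto (fun N : ℕ => ∑ n ∈ range N, a n) atTop (𝓝 (g 1)) := by
  obtain ⟨δ, hδ0, hδ1, hδr⟩ : ∃ δ : ℝ, 0 < δ ∧ δ ≤ 1 / 2 ∧ δ < r :=
    ⟨min (r / 2) (1 / 2), by positivity, min_le_right _ _,
      (min_le_left _ _).trans_lt (by linarith)⟩
  have hsub : Metric.closedBall (1 : ℂ) δ ⊆ Metric.ball 1 r :=
    Metric.closedBall_subset_ball hδr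
  obtain ⟨G, hG⟩ := (isCompact_closedBall (1 : ℂ) δ).exists_bound_of_continuousOn
    ((hd.mono hsub).continuousOn)
  obtain ⟨A, hA⟩ : ∃ A, ∀ n, ‖a n‖ ≤ A := by
    obtain ⟨A, hA⟩ := ha.norm.bddAbove_range
    exact ⟨A, fun n => hA ⟨n, rfl⟩⟩
  have hA0 : 0 ≤ A := (norm_nonneg _).trans (hA 0)
  rw [Metric.tendsto_atTop]
  intro ε hε
  set ε' := δ * ε / 6 with hε'
  have hε'0 : 0 < ε' := by positivity
  obtain ⟨m, hm⟩ := (Metric.tendsto_atTop.1 ha) ε' hε'0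
  have hm' : ∀ n, m ≤ n → ‖a n‖ ≤ ε' := by
    intro n hn
    have := hm n hn
    rw [dist_zero_right] at this
    exact this.le
  have hlim : Tendsto (fun N : ℕ => 3 / δ * (A * m / ((N : ℝ) - m) + G / N)) atTop (𝓝 0) := by
    have h1 : Tendsto (fun N : ℕ => (N : ℝ) - m) atTop atTop :=
      tendsto_atTop_add_const_right _ _ tendsto_natCast_atTop_atTop
    have h2 : Tendsto (fun N : ℕ => A * m / ((N : ℝ) - m)) atTop (𝓝 0) :=
      h1.const_div_atTop _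
    have h3 : Tendsto (fun N : ℕ => G / (N : ℝ)) atTop (𝓝 0) :=
      tendsto_natCast_atTop_atTop.const_div_atTop _
    simpa using (h2.add h3).const_mul (3 / δ)
  obtain ⟨N0, hN0⟩ := (Metric.tendsto_atTop.1 hlim) (ε / 2) (by positivity)
  refine ⟨max N0 (m + 1), fun N hN => ?_⟩
  have h1 := hN0 N ((le_max_left _ _).trans hN)
  rw [dist_zero_right, Real.norm_eq_abs] at h1
  have h2 := centre hA0 hε'0.le hδ0 hδ1 hδr hA hm'
    (N := N) (lt_of_lt_of_le (Nat.lt_succ_self m) ((le_max_right _ _).trans hN)) hd hG hser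
  have h3 := (le_abs_self _).trans_lt h1
  have h4 : 3 / δ * ε' = ε / 2 := by
    rw [hε']
    field_simp
    ring
  rw [dist_comm, dist_eq_norm]
  calc ‖g 1 - ∑ n ∈ range N, a n‖ ≤ 3 / δ * (ε' + A * m / ((N : ℝ) - m) + G / N) := h2
    _ = 3 / δ * ε' + 3 / δ * (A * m / ((N : ℝ) - m) + G / N) := by ring
    _ < ε := by linarith

theorem t_RIESZ : Pool.Agent.E8helper2.PS.S_RIESZ := by
  intro a z r g ha hz hr hd hser
  have hmaps : ∀ w : ℂ, w ∈ Metric.ball (1 : ℂ) r → z * w ∈ Metric.ball z r := by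
    intro w hw
    rw [Metric.mem_ball, dist_eq_norm] at hw ⊢
    have : z * w - z = z * (w - 1) := by ring
    rw [this, norm_mul, hz, one_mul]
    exact hw
  have ha' : Tendsto (fun n => a n * z ^ n) atTop (𝓝 0) := by
    rw [tendsto_zero_iff_norm_tendsto_zero] at ha ⊢
    refine ha.congr fun n => ?_
    rw [norm_mul, norm_pow, hz, one_pow, mul_one]
  have hd' : DifferentiableOn ℂ (fun w => g (z * w)) (Metric.ball 1 r) := by
    refine hd.comp (g := g) (f := fun w => z * w) ?_ hmaps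
    fun_prop
  have h1 := core ha' hr hd' (fun w hw hw1 => by
    have h2 : ‖z * w‖ < 1 := by rw [norm_mul, hz, one_mul]; exact hw1
    show g (z * w) = _
    rw [hser (z * w) (hmaps w hw) h2]
    refine tsum_congr fun n => ?_
    rw [mul_pow, mul_assoc])
  simpa using h1

end Pool.Agent.E8helper42.PS
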